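import Mathlib
import Pool.Agent.Y327.Full
import Pool.Agent.H905R2.OppD

/-! # Oppenheim's conclusion and integral forms -/

set_option autoImplicit false

open Filter Topology

namespace Pool.Agent.V11109.CSD

variable {n : ℕ}

theorem matrix_iff_propInt (hn : 3 ≤ n) {L : Fin n → Fin n → ℝ} (hL : LinearIndependent ℝ L)
    (hc : ∃ c : ℝ, 0 < c ∧ ∀ p : Fin n → ℤ, p ≠ 0 → c ≤ |∏ i, ∑ j, L i j * (p j : ℝ)|) :
    (∃ A : Matrix (Fin n) (Fin n) ℤ,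
      A.det = 1 ∧
      Irreducible (A.charpoly.map (Int.castRingHom ℚ)) ∧
      (∀ z : ℂ, Polynomial.aeval z A.charpoly = 0 → z.im = 0) ∧
      ∀ i : Fin n, ∀ x : Fin n → ℝ, ∑ j, L i j * x j = 0 →
        ∑ j, L i j * ((A.map (Int.cast : ℤ → ℝ)).mulVec x) j = 0) ↔
    H715R2.PropInt (Matrix.of L) := by
  have hdet := Pool.Agent.H905R2.Opp.det_ne hL
  constructor
  · rintro ⟨A, -, hA1, -, hA2⟩
    obtain ⟨c, hc0, hc1⟩ := hc
    exact Y327.propInt_of_opp hn hdet hc0 hc1 hA1 hA2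
  · intro hP
    exact Pool.Agent.H905R2.Opp.opp_of_propInt (by omega) hL hc hP

lemma indep_of_det {L : Fin n → Fin n → ℝ} (h : (Matrix.of L).det ≠ 0) :
    LinearIndependent ℝ L := by
  have h1 : IsUnit (Matrix.of L) :=
    (Matrix.isUnit_iff_isUnit_det _).2 (isUnit_iff_ne_zero.2 h)
  exact Matrix.linearIndependent_rows_iff_isUnit.2 h1

/-- the limits of the systems as matrices -/
lemma limits_iff (L : Fin n → Fin n → ℝ) (L' : Fin n → Fin n → ℝ) :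
    L' ∈ closure {L' : Fin n → Fin n → ℝ | ∃ (a : Fin n → ℝ) (γ : Matrix (Fin n) (Fin n) ℤ),
      (∀ i, 0 < a i) ∧ ∏ i, a i = 1 ∧ |γ.det| = 1 ∧
      ∀ i j, L' i j = a i * ∑ k, L i k * (γ k j : ℝ)} ↔
    Matrix.of L' ∈ closure (H715R2.Orb (Matrix.of L)) := by
  have h1 : {L' : Fin n → Fin n → ℝ | ∃ (a : Fin n → ℝ) (γ : Matrix (Fin n) (Fin n) ℤ),
      (∀ i, 0 < a i) ∧ ∏ i, a i = 1 ∧ |γ.det| = 1 ∧
      ∀ i j, L' i j = a i * ∑ k, L i k * (γ k j : ℝ)} =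
      (H715R2.Orb (Matrix.of L) : Set (Fin n → Fin n → ℝ)) := by
    ext h
    constructor
    · rintro ⟨a, γ, ha0, ha1, hγ, hh⟩
      refine ⟨a, γ, ha0, ha1, Int.isUnit_iff_abs_eq.2 hγ, ?_⟩
      funext i j
      rw [hh, Matrix.mul_assoc, Matrix.diagonal_mul, Matrix.mul_apply]
      rfl
    · rintro ⟨a, γ, ha0, ha1, hγ, hh⟩
      refine ⟨a, γ, ha0, ha1, Int.isUnit_iff_abs_eq.1 hγ, fun i j => ?_⟩
      rw [hh, Matrix.mul_assoc, Matrix.diagonal_mul, Matrix.mul_apply]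
      rfl
  rw [h1]
  rfl

end Pool.Agent.V11109.CSD
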