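import Mathlib

/-! # Separated points in sets with differences at all scales -/

set_option autoImplicit false

namespace Pool.Agent.V11109.CSD

/-- one more point at a smaller scale -/
lemma sep_step {S : Set ℝ} {R δ δ' : ℝ} (hδ' : 0 < δ') (hδ : (2 * R + 2) * δ' ≤ δ)
    (hpair : ∃ s ∈ S, ∃ t ∈ S, 2 * δ' ≤ |s - t| ∧ |s - t| ≤ R * (2 * δ')) (P : Finset ℝ)
    (hPS : (P : Set ℝ) ⊆ S) (hP : ∀ s ∈ P, ∀ t ∈ P, s ≠ t → δ ≤ |s - t|) (hle : δ' ≤ δ) :
    ∃ Q : Finset ℝ, (Q : Set ℝ) ⊆ S ∧ (∀ s ∈ Q, ∀ t ∈ Q, s ≠ t → δ' ≤ |s - t|) ∧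
      Q.card = P.card + 1 := by
  classical
  obtain ⟨s, hs, t, ht, hlo, hup⟩ := hpair
  have key : ∃ u ∈ S, ∀ p ∈ P, δ' ≤ |u - p| := by
    by_contra hcon
    push Not at hcon
    obtain ⟨p, hp, hsp⟩ := hcon s hs
    obtain ⟨p', hp', htp⟩ := hcon t ht
    by_cases hpp : p = p'
    · subst hpp
      have h1 : |s - t| ≤ |s - p| + |t - p| := by
        have := abs_sub_le s p t
        rwa [abs_sub_comm p t] at this
      linarith
    · have h1 := hP p hp p' hp' hpp
      have h2 : |p - p'| ≤ |s - p| + |s - t| + |t - p'| := by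
        have e : p - p' = -(s - p) + (s - t) + (t - p') := by ring
        rw [e]
        refine (abs_add_le _ _).trans (add_le_add_left ?_ _)
        refine (abs_add_le _ _).trans ?_
        rw [abs_neg]
      nlinarith
  obtain ⟨u, hu, hup'⟩ := key
  have huP : u ∉ P := fun h => by
    have := hup' u h
    rw [sub_self, abs_zero] at this
    linarith
  refine ⟨insert u P, ?_, ?_, Finset.card_insert_of_notMem huP⟩
  · intro x hx
    rw [Finset.coe_insert, Set.mem_insert_iff] at hx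
    rcases hx with rfl | hx
    · exact hu
    · exact hPS hx
  · intro x hx y hy hxy
    rw [Finset.mem_insert] at hx hy
    rcases hx with rfl | hx <;> rcases hy with rfl | hy
    · exact absurd rfl hxy
    · exact hup' y hy
    · rw [abs_sub_comm]; exact hup' x hx
    · exact hle.trans (hP x hx y hy hxy)

/-- **Separated points.** A set with differences at all scales has many separated points. -/
theorem sep_of_scales {S : Set ℝ} {R ε₀ : ℝ} (hR : 1 < R) (hε₀ : 0 < ε₀)
    (h : ∀ η : ℝ, 0 < η → η < ε₀ → ∃ s ∈ S, ∃ t ∈ S, η ≤ |s - t| ∧ |s - t| ≤ R * η) :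
    ∃ c : ℝ, 0 < c ∧ ∃ ε₁ : ℝ, 0 < ε₁ ∧ ∀ ε : ℝ, 0 < ε → ε < ε₁ → ∃ P : Finset ℝ,
      (P : Set ℝ) ⊆ S ∧ (∀ s ∈ P, ∀ t ∈ P, s ≠ t → ε ≤ |s - t|) ∧
      c * Real.log (1 / ε) ≤ P.card := by
  set K : ℝ := 2 * R + 2 with hK
  have hK4 : 4 < K := by linarith
  have hK0 : 0 < K := by linarith
  have hind : ∀ n : ℕ, ∃ P : Finset ℝ, (P : Set ℝ) ⊆ S ∧
      (∀ s ∈ P, ∀ t ∈ P, s ≠ t → ε₀ / K ^ n ≤ |s - t|) ∧ P.card = n := by
    intro n
    induction n with
    | zero => exact ⟨∅, by simp, by simp, rfl⟩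
    | succ n ih =>
      obtain ⟨P, hPS, hP, hc⟩ := ih
      have hpos : 0 < ε₀ / K ^ (n + 1) := by positivity
      have hlt : 2 * (ε₀ / K ^ (n + 1)) < ε₀ := by
        have h1 : K ≤ K ^ (n + 1) := by
          rw [pow_succ]
          exact le_mul_of_one_le_left hK0.le (one_le_pow₀ (by linarith))
        have h2 : ε₀ / K ^ (n + 1) ≤ ε₀ / K := div_le_div_of_nonneg_left hε₀.le hK0 h1
        have h3 : ε₀ / K < ε₀ / 4 := div_lt_div_of_pos_left hε₀ (by norm_num) hK4
        linarith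
      obtain ⟨Q, hQS, hQ, hQc⟩ := sep_step (S := S) (R := R) (δ := ε₀ / K ^ n)
        (δ' := ε₀ / K ^ (n + 1)) hpos (le_of_eq (by rw [← hK, pow_succ]; field_simp))
        (by
          obtain ⟨s, hs, t, ht, h1, h2⟩ := h (2 * (ε₀ / K ^ (n + 1))) (by linarith) hlt
          exact ⟨s, hs, t, ht, h1, h2⟩) P hPS hP
        (div_le_div_of_nonneg_left hε₀.le (by positivity)
          (pow_le_pow_right₀ (by linarith) (Nat.le_succ n)))
      exact ⟨Q, hQS, hQ, by rw [hQc, hc]⟩
  have hlK : 0 < Real.log K := Real.log_pos (by linarith)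
  refine ⟨1 / (2 * Real.log K), by positivity,
    Real.exp (-(2 * Real.log K + 2 * |Real.log ε₀|)), Real.exp_pos _, fun ε hε hε1 => ?_⟩
  have hlog : Real.log ε < -(2 * Real.log K + 2 * |Real.log ε₀|) := by
    rwa [Real.log_lt_iff_lt_exp hε]
  have hl1 : Real.log (1 / ε) = - Real.log ε := by rw [one_div, Real.log_inv]
  set x : ℝ := (Real.log ε₀ - Real.log ε) / Real.log K with hx
  have hx0 : 0 ≤ x := by
    rw [hx]
    refine div_nonneg ?_ hlK.le
    have := neg_abs_le (Real.log ε₀)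
    have := abs_nonneg (Real.log ε₀)
    linarith
  obtain ⟨P, hPS, hP, hc⟩ := hind ⌊x⌋₊
  refine ⟨P, hPS, fun s hs t ht hst => le_trans ?_ (hP s hs t ht hst), ?_⟩
  · rw [le_div_iff₀ (by positivity)]
    have h1 : (K ^ ⌊x⌋₊ : ℝ) ≤ ε₀ / ε := by
      rw [← Real.log_le_log_iff (by positivity) (by positivity), Real.log_pow,
        Real.log_div hε₀.ne' hε.ne']
      have h2 := Nat.floor_le hx0
      have h3 : x * Real.log K = Real.log ε₀ - Real.log ε := by
        rw [hx]; field_simp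
      nlinarith
    have h4 := mul_le_mul_of_nonneg_left h1 hε.le
    rwa [mul_div_cancel₀ _ hε.ne'] at h4
  · rw [hc]
    have h2 := Nat.lt_floor_add_one x
    have h3 : 1 / (2 * Real.log K) * Real.log (1 / ε) ≤ x - 1 := by
      rw [hx, hl1, le_sub_iff_add_le, le_div_iff₀ hlK]
      have h4 : (1 / (2 * Real.log K) * -Real.log ε + 1) * Real.log K =
          - Real.log ε / 2 + Real.log K := by
        field_simp
      rw [h4]
      have := neg_abs_le (Real.log ε₀)
      linarith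
    linarith

end Pool.Agent.V11109.CSD
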