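import Mathlib
import Pool.Agent.Y327.Full
import Pool.Agent.Y327.Recur
import Pool.Agent.TH314.CSD.Attain
import Pool.Agent.TH314.CSD.Scales

/-! # Isolation of integral forms -/

set_option autoImplicit false

open Filter Topology Matrix

namespace Pool.Agent.V11109.CSD

open H715R2 Pool.Agent.Y327

variable {d : ℕ}

/-- limits of pairs in two closed invariant sets -/
lemma limit_pair2 (hd : 0 < d) {V ν : ℝ} (hV : 0 < V) (hν : 0 < ν)
    {M N : Set (Matrix (Fin d) (Fin d) ℝ)} (hMdet : ∀ h ∈ M, |h.det| = V)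
    (hMnu : ∀ h ∈ M, HasNu h ν) (hMc : IsClosed M) (hMinv : InvB id M)
    (hNc : IsClosed N) (hNinv : InvB id N)
    {h q : ℕ → Matrix (Fin d) (Fin d) ℝ} {b : ℕ → Fin d → ℝ} (hh : ∀ n, h n ∈ M)
    (hq : ∀ n, q n * h n ∈ N) (hb : ∀ n, BB id (b n)) {q' : Matrix (Fin d) (Fin d) ℝ}
    (hlim : Tendsto (fun n => diagonal (b n) * q n * diagonal (fun i => (b n i)⁻¹)) atTop
      (𝓝 q')) :
    ∃ h' ∈ M, q' * h' ∈ N := by
  obtain ⟨R, hR⟩ := exists_bound hd V ν hV hν
  have hγ : ∀ n, ∃ γ : Matrix (Fin d) (Fin d) ℤ, IsUnit γ.det ∧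
      ∀ i j, |(diagonal (b n) * h n * zR γ) i j| ≤ R := by
    intro n
    have h1 : diagonal (b n) * h n ∈ M := hMinv.diag (hh n) (hb n)
    exact hR _ (hMdet _ h1) (hMnu _ h1)
  choose γ hγu hγR using hγ
  obtain ⟨h', -, φ, hφ, hlim'⟩ := (isCompact_box (d := d) R).tendsto_subseq hγR
  refine ⟨h', hMc.mem_of_tendsto hlim' (Eventually.of_forall fun n =>
    hMinv _ (hh _) _ _ (hb _) (hγu _)), ?_⟩
  have h1 := (hlim.comp hφ.tendsto_atTop).mul hlim'
  refine hNc.mem_of_tendsto h1 (Eventually.of_forall fun n => ?_)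
  have h2 := hNinv _ (hq (φ n)) _ _ (hb (φ n)) (hγu (φ n))
  have h3 : (diagonal (b (φ n)) * q (φ n) * diagonal (fun i => (b (φ n) i)⁻¹)) *
      (diagonal (b (φ n)) * h (φ n) * zR (γ (φ n)))
      = diagonal (b (φ n)) * (q (φ n) * h (φ n)) * zR (γ (φ n)) := by
    have h4 : (diagonal (fun i => (b (φ n) i)⁻¹) : Matrix (Fin d) (Fin d) ℝ) *
        diagonal (b (φ n)) = 1 := by
      rw [diagonal_mul_diagonal]
      have : (fun i => (b (φ n) i)⁻¹ * b (φ n) i) = fun _ => (1 : ℝ) := by
        funext i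
        exact inv_mul_cancel₀ ((hb (φ n)).1 i).ne'
      rw [this, diagonal_one]
    calc _ = diagonal (b (φ n)) * q (φ n) * (diagonal (fun i => (b (φ n) i)⁻¹) *
        diagonal (b (φ n))) * h (φ n) * zR (γ (φ n)) := by simp only [Matrix.mul_assoc]
      _ = _ := by rw [h4, Matrix.mul_one]; simp only [Matrix.mul_assoc]
  simp only [Function.comp]
  rw [h3]
  exact h2

/-- **Pairs which differ in one row, from sequences of forms.** -/
theorem row_pair2 (hd : 0 < d) {V ν : ℝ} (hV : 0 < V) (hν : 0 < ν)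
    {M Q : Set (Matrix (Fin d) (Fin d) ℝ)} (hMdet : ∀ h ∈ M, |h.det| = V)
    (hMnu : ∀ h ∈ M, HasNu h ν) (hMc : IsClosed M) (hMinv : InvB id M)
    (hQc : IsClosed Q) (hQinv : InvB id Q)
    {h₀ : Matrix (Fin d) (Fin d) ℝ} (hh₀ : h₀ ∈ M) {k : Fin d}
    (hfr : ∃ᶠ h in 𝓝[Q] h₀, ¬ ∃ c : ℝ, h k = c • h₀ k) :
    ∃ h' ∈ M, ∃ w : Fin d → ℝ, w k = 0 ∧ w ≠ 0 ∧ Md {k} (fun _ => w) * h' ∈ Q := by
  classical
  have hdet : |h₀.det| = V := hMdet _ hh₀
  have hdet0 : h₀.det ≠ 0 := by
    intro h0
    rw [h0, abs_zero] at hdet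
    exact hV.ne hdet
  have hu : IsUnit h₀.det := isUnit_iff_ne_zero.2 hdet0
  obtain ⟨hs, hs1, hs2⟩ := Filter.exists_seq_forall_of_frequently
    (hfr.and_eventually self_mem_nhdsWithin)
  have hslim : Tendsto hs atTop (𝓝 h₀) := hs1.mono_right nhdsWithin_le_nhds
  set q : ℕ → Matrix (Fin d) (Fin d) ℝ := fun n => hs n * h₀⁻¹ with hq
  have hqh : ∀ n, q n * h₀ = hs n := fun n => by
    rw [hq, Matrix.mul_assoc, Matrix.nonsing_inv_mul _ hu, Matrix.mul_one]
  have hqlim : Tendsto q atTop (𝓝 1) := by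
    have h1 : Tendsto q atTop (𝓝 (h₀ * h₀⁻¹)) := hslim.mul tendsto_const_nhds
    rwa [Matrix.mul_nonsing_inv _ hu] at h1
  have hqent : ∀ i j, Tendsto (fun n => q n i j) atTop
      (𝓝 ((1 : Matrix (Fin d) (Fin d) ℝ) i j)) := fun i j =>
    ((continuous_apply_apply i j).tendsto (1 : Matrix (Fin d) (Fin d) ℝ)).comp hqlim
  set lam : ℕ → ℝ := fun n => ∑ l ∈ Finset.univ.erase k, |q n k l| with hlam
  have hlam0 : ∀ n, 0 < lam n := by
    intro n
    by_contra hcon
    have h1 : lam n = 0 := le_antisymm (not_lt.1 hcon) (Finset.sum_nonneg fun _ _ => abs_nonneg _)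
    have h2 : ∀ l, l ≠ k → q n k l = 0 := by
      intro l hl
      have h3 := (Finset.sum_eq_zero_iff_of_nonneg (fun _ _ => abs_nonneg _)).1 h1 l
        (Finset.mem_erase.2 ⟨hl, Finset.mem_univ l⟩)
      exact abs_eq_zero.1 h3
    apply (hs2 n).1
    refine ⟨q n k k, ?_⟩
    rw [← hqh n]
    funext j
    rw [Matrix.mul_apply, Pi.smul_apply, smul_eq_mul, Finset.sum_eq_single k]
    · intro l _ hl
      rw [h2 l hl, zero_mul]
    · intro h; exact absurd (Finset.mem_univ k) h
  have hlamlim : Tendsto lam atTop (𝓝 0) := by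
    have h1 : Tendsto lam atTop (𝓝 (∑ l ∈ Finset.univ.erase k,
        |(1 : Matrix (Fin d) (Fin d) ℝ) k l|)) :=
      tendsto_finsetSum _ fun l _ => (hqent k l).abs
    have h2 : (∑ l ∈ Finset.univ.erase k, |(1 : Matrix (Fin d) (Fin d) ℝ) k l|) = 0 := by
      refine Finset.sum_eq_zero fun l hl => ?_
      rw [Matrix.one_apply_ne (Finset.ne_of_mem_erase hl).symm, abs_zero]
    rwa [h2] at h1
  choose b hb hbk using fun n => exists_bk (π := id) hd (k := k) (fun l hl => hl) (inv_pos.2 (hlam0 n))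
  -- the normalised row
  set y : ℕ → Fin d → ℝ := fun n l => if l = k then 0 else q n k l / lam n with hy
  have hyb : ∀ n, y n ∈ Metric.closedBall (0 : Fin d → ℝ) 1 := by
    intro n
    rw [mem_closedBall_zero_iff, pi_norm_le_iff_of_nonneg zero_le_one]
    intro l
    simp only [hy]
    by_cases hl : l = k
    · rw [if_pos hl, norm_zero]; exact zero_le_one
    · rw [if_neg hl, Real.norm_eq_abs, abs_div, abs_of_pos (hlam0 n), div_le_one (hlam0 n)]
      exact Finset.single_le_sum (f := fun l => |q n k l|) (fun _ _ => abs_nonneg _)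
        (Finset.mem_erase.2 ⟨hl, Finset.mem_univ l⟩)
  obtain ⟨w, -, φ, hφ, hw⟩ := (isCompact_closedBall (0 : Fin d → ℝ) 1).tendsto_subseq hyb
  have hwent : ∀ l, Tendsto (fun n => y (φ n) l) atTop (𝓝 (w l)) := fun l =>
    ((continuous_apply l).tendsto w).comp hw
  have hwk : w k = 0 := by
    refine tendsto_nhds_unique (hwent k) ?_
    simp only [hy, if_true]
    exact tendsto_const_nhds
  have hsum : ∑ l ∈ Finset.univ.erase k, |w l| = 1 := by
    have h1 : Tendsto (fun n => ∑ l ∈ Finset.univ.erase k, |y (φ n) l|) atTop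
        (𝓝 (∑ l ∈ Finset.univ.erase k, |w l|)) :=
      tendsto_finsetSum _ fun l _ => (hwent l).abs
    have h2 : (fun n => ∑ l ∈ Finset.univ.erase k, |y (φ n) l|) = fun _ => (1 : ℝ) := by
      funext n
      have h3 : ∀ l ∈ Finset.univ.erase k, |y (φ n) l| = |q (φ n) k l| / lam (φ n) := by
        intro l hl
        simp only [hy, if_neg (Finset.ne_of_mem_erase hl), abs_div, abs_of_pos (hlam0 (φ n))]
      rw [Finset.sum_congr rfl h3, ← Finset.sum_div]
      exact div_self (hlam0 (φ n)).ne'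
    rw [h2] at h1
    exact tendsto_nhds_unique h1 tendsto_const_nhds
  have hw0 : w ≠ 0 := by
    intro h0
    rw [h0] at hsum
    simp at hsum
  -- the limit of the conjugates
  have hlimX : Tendsto (fun n => diagonal (b (φ n)) * q (φ n) *
      diagonal (fun i => (b (φ n) i)⁻¹)) atTop (𝓝 (Md {k} (fun _ => w))) := by
    refine tendsto_pi_nhds.2 fun i => tendsto_pi_nhds.2 fun j => ?_
    have hent : ∀ n, (diagonal (b (φ n)) * q (φ n) * diagonal (fun i => (b (φ n) i)⁻¹)) i j
        = b (φ n) i * q (φ n) i j * (b (φ n) j)⁻¹ := by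
      intro n
      rw [Matrix.mul_diagonal, Matrix.diagonal_mul]
    simp only [hent]
    have hqij := (hqent i j).comp hφ.tendsto_atTop
    by_cases hi : i = k
    · by_cases hj : j = k
      · -- diagonal entry
        have h1 : (Md {k} (fun _ => w)) i j = 1 := by
          rw [hi, hj, Md, Matrix.add_apply, Matrix.one_apply_eq, Matrix.of_apply]
          simp [hwk]
        rw [h1]
        have h2 : (fun n => b (φ n) i * q (φ n) i j * (b (φ n) j)⁻¹) = fun n => q (φ n) i j := by
          funext n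
          have := ((hb (φ n)).1 j).ne'
          rw [hi, ← hj]
          field_simp
        rw [h2]
        have h3 : (1 : Matrix (Fin d) (Fin d) ℝ) i j = 1 := by rw [hi, hj, Matrix.one_apply_eq]
        rw [h3] at hqij
        exact hqij
      · have h1 : (Md {k} (fun _ => w)) i j = w j := by
          rw [hi, Md, Matrix.add_apply, Matrix.one_apply_ne (Ne.symm hj), Matrix.of_apply]
          simp
        rw [h1]
        have h2 : (fun n => b (φ n) i * q (φ n) i j * (b (φ n) j)⁻¹) = fun n => y (φ n) j := by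
          funext n
          have h4 := ((hb (φ n)).1 j).ne'
          have h5 := hbk (φ n) j hj
          simp only [hy, if_neg hj]
          rw [hi, h5]
          field_simp
        rw [h2]
        exact hwent j
    · have h1 : (Md {k} (fun _ => w)) i j = (1 : Matrix (Fin d) (Fin d) ℝ) i j := by
        rw [Md, Matrix.add_apply, Matrix.of_apply]
        simp [hi]
      rw [h1]
      by_cases hj : j = k
      · have h2 : (fun n => b (φ n) i * q (φ n) i j * (b (φ n) j)⁻¹)
            = fun n => q (φ n) i j * lam (φ n) := by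
          funext n
          have h4 := ((hb (φ n)).1 i).ne'
          have h5 := hbk (φ n) i hi
          have h6 := (hlam0 (φ n)).ne'
          rw [hj, h5]
          field_simp
        rw [h2]
        have h7 := hqij.mul (hlamlim.comp hφ.tendsto_atTop)
        rw [mul_zero] at h7
        have h8 : (1 : Matrix (Fin d) (Fin d) ℝ) i j = 0 := by
          rw [hj, Matrix.one_apply_ne hi]
        rw [h8]
        exact h7
      · have h2 : (fun n => b (φ n) i * q (φ n) i j * (b (φ n) j)⁻¹)
            = fun n => q (φ n) i j := by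
          funext n
          have h4 := ((hb (φ n)).1 i).ne'
          have h5 := hbk (φ n) i hi
          have h6 := hbk (φ n) j hj
          have h7 : b (φ n) j = b (φ n) i := by
            have h8 : (lam (φ n))⁻¹ * b (φ n) j = (lam (φ n))⁻¹ * b (φ n) i := by
              rw [← h5, ← h6]
            exact mul_left_cancel₀ (inv_pos.2 (hlam0 (φ n))).ne' h8
          rw [h7]
          field_simp
        rw [h2]
        exact hqij
  obtain ⟨h', hh', hh''⟩ := limit_pair2 hd hV hν hMdet hMnu hMc hMinv hQc hQinv (h := fun _ => h₀)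
    (q := fun n => q (φ n)) (b := fun n => b (φ n)) (fun _ => hh₀) (fun n => by
      simp only [hqh]; exact (hs2 (φ n)).2) (fun n => hb (φ n)) hlimX
  exact ⟨h', hh', w, hwk, hw0, hh''⟩

/-- the forms of absolute determinant `V` which are at least `ν` at the nonzero integer points -/
def KK (d : ℕ) (V ν : ℝ) : Set (Matrix (Fin d) (Fin d) ℝ) := {h | |h.det| = V ∧ HasNu h ν}

lemma KK_closed (V ν : ℝ) : IsClosed (KK d V ν) := by
  refine IsClosed.inter ?_ ?_
  · exact isClosed_eq (continuous_abs.comp continuous_det') continuous_const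
  · have h1 : {h : Matrix (Fin d) (Fin d) ℝ | HasNu h ν} =
        ⋂ (m : Fin d → ℤ) (_ : m ≠ 0), {h | ν ≤ |FF h (iR m)|} := by
      ext h
      simp [HasNu]
    show IsClosed {h : Matrix (Fin d) (Fin d) ℝ | HasNu h ν}
    rw [h1]
    exact isClosed_iInter fun m => isClosed_iInter fun _ =>
      isClosed_le continuous_const (continuous_abs.comp (continuous_FF _))

lemma KK_inv (V ν : ℝ) : H715R2.Inv (KK d V ν) := by
  intro h hh a γ ha0 ha1 hγ
  have hmem : diagonal a * h * zR γ ∈ Orb h := ⟨a, γ, ha0, ha1, hγ, rfl⟩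
  exact ⟨by rw [abs_det_orb hmem]; exact hh.1, hasNu_closure hh.2 (subset_closure hmem)⟩

lemma closure_sub_KK {V ν : ℝ} {h : Matrix (Fin d) (Fin d) ℝ} (hh : h ∈ KK d V ν) :
    closure (Orb h) ⊆ KK d V ν :=
  H715R2.orb_subset (KK_closed V ν) (KK_inv V ν) hh

/-- a modification of a row of an integral form which stays bounded below is integral -/
lemma propInt_Md (hd : 3 ≤ d) {V ν : ℝ} (hV : 0 < V) (hν : 0 < ν)
    {h : Matrix (Fin d) (Fin d) ℝ} (hh : h ∈ KK d V ν) (hP : PropInt h) {k : Fin d}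
    {w : Fin d → ℝ} (hwk : w k = 0) (hw : Md {k} (fun _ => w) * h ∈ KK d V ν) :
    PropInt (Md {k} (fun _ => w) * h) := by
  classical
  have hd0 : 0 < d := by omega
  set g := Md {k} (fun _ => w) * h with hg
  have hgdet : g.det ≠ 0 := by
    rw [← abs_ne_zero, hw.1]
    exact hV.ne'
  have hhdet : h.det ≠ 0 := by
    rw [← abs_ne_zero, hh.1]
    exact hV.ne'
  by_contra hint
  choose b hb hbk using fun n : ℕ => exists_bk (π := id) hd0 (k := k) (fun l hl => hl)
    (ρ := 1 / ((n : ℝ) + 1)) (by positivity)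
  have hlim : Tendsto (fun n => diagonal (b n) * Md {k} (fun _ => w) *
      diagonal (fun i => (b n i)⁻¹)) atTop (𝓝 (1 : Matrix (Fin d) (Fin d) ℝ)) := by
    refine tendsto_pi_nhds.2 fun i => tendsto_pi_nhds.2 fun j => ?_
    have hent : ∀ n, (diagonal (b n) * Md {k} (fun _ => w) * diagonal (fun i => (b n i)⁻¹)) i j
        = b n i * (Md {k} (fun _ => w)) i j * (b n j)⁻¹ := by
      intro n
      rw [Matrix.mul_diagonal, Matrix.diagonal_mul]
    simp only [hent]
    have hMd : ∀ i j, (Md {k} (fun _ => w)) i j =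
        (1 : Matrix (Fin d) (Fin d) ℝ) i j + if i = k then w j else 0 := by
      intro i j
      simp [Md, Matrix.add_apply]
    by_cases hij : i = j
    · subst hij
      have h1 : (Md {k} (fun _ => w)) i i = 1 := by
        rw [hMd, Matrix.one_apply_eq]
        by_cases hi : i = k
        · rw [if_pos hi, hi, hwk, add_zero]
        · rw [if_neg hi, add_zero]
      rw [h1, Matrix.one_apply_eq]
      have h2 : (fun n => b n i * 1 * (b n i)⁻¹) = fun _ => (1 : ℝ) := by
        funext n
        rw [mul_one, mul_inv_cancel₀ ((hb n).1 i).ne']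
      rw [h2]
      exact tendsto_const_nhds
    · rw [Matrix.one_apply_ne hij]
      by_cases hi : i = k
      · have h2 : (fun n => b n i * (Md {k} (fun _ => w)) i j * (b n j)⁻¹) =
            fun n : ℕ => w j * (1 / ((n : ℝ) + 1)) := by
          funext n
          have h3 := ((hb n).1 j).ne'
          have h4 := hbk n j (fun h0 => hij (hi.trans h0.symm))
          rw [hMd, Matrix.one_apply_ne hij, if_pos hi, zero_add, hi, h4]
          field_simp
        rw [h2]
        have := (tendsto_one_div_add_atTop_nhds_zero_nat (𝕜 := ℝ)).const_mul (w j)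
        rwa [mul_zero] at this
      · have h2 : (fun n => b n i * (Md {k} (fun _ => w)) i j * (b n j)⁻¹) = fun _ : ℕ => (0 : ℝ) := by
          funext n
          rw [hMd, Matrix.one_apply_ne hij, if_neg hi, add_zero, mul_zero, zero_mul]
        rw [h2]
        exact tendsto_const_nhds
  obtain ⟨h', hh', hh''⟩ := limit_pair2 hd0 hV hν (M := closure (Orb h)) (N := closure (Orb g))
    (fun x hx => (closure_sub_KK hh hx).1) (fun x hx => (closure_sub_KK hh hx).2) isClosed_closure
    (invB_of_inv (TH314.CSD.inv_closure h) id) isClosed_closure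
    (invB_of_inv (TH314.CSD.inv_closure g) id) (h := fun _ => h)
    (q := fun _ => Md {k} (fun _ => w)) (b := b) (fun _ => subset_closure (mem_orb_self h))
    (fun _ => subset_closure (mem_orb_self g)) hb hlim
  rw [Matrix.one_mul] at hh''
  exact not_propInt_closure hd hgdet hν hw.2 hint hh''
    (propInt_closure hd hhdet hν hh.2 hP hh')

/-- **Isolation of integral forms.** -/
theorem isolated (hd : 3 ≤ d) {V ν : ℝ} (hV : 0 < V) (hν : 0 < ν)
    {h₀ : Matrix (Fin d) (Fin d) ℝ} (hh₀ : h₀ ∈ KK d V ν) (hP : PropInt h₀) :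
    ∀ᶠ h in 𝓝[KK d V ν] h₀, ∃ a : Fin d → ℝ, (∀ i, 0 < a i) ∧ ∏ i, a i = 1 ∧
      h = diagonal a * h₀ := by
  classical
  have hd0 : 0 < d := by omega
  have hdet0 : h₀.det ≠ 0 := by
    rw [← abs_ne_zero, hh₀.1]
    exact hV.ne'
  have hrow : ∀ k : Fin d, ∀ᶠ h in 𝓝[KK d V ν] h₀, ∃ c : ℝ, h k = c • h₀ k := by
    intro k
    by_contra hcon
    have hfr : ∃ᶠ h in 𝓝[KK d V ν] h₀, ¬ ∃ c : ℝ, h k = c • h₀ k := Filter.not_eventually.1 hcon
    obtain ⟨h', hh', w, hwk, hw0, hw⟩ := row_pair2 hd0 hV hν (M := closure (Orb h₀))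
      (fun x hx => (closure_sub_KK hh₀ hx).1) (fun x hx => (closure_sub_KK hh₀ hx).2)
      isClosed_closure (invB_of_inv (TH314.CSD.inv_closure h₀) id) (KK_closed V ν)
      (invB_of_inv (KK_inv V ν) id) (subset_closure (mem_orb_self h₀)) hfr
    have hh'K := closure_sub_KK hh₀ hh'
    have hP' : PropInt h' := propInt_closure hd hdet0 hν hh₀.2 hP hh'
    have hdet' : h'.det ≠ 0 := by
      rw [← abs_ne_zero, hh'K.1]
      exact hV.ne'
    exact hw0 (unique_factor (by omega) hdet' hν hh'K.2 hP' hwk hw.2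
      (propInt_Md hd hV hν hh'K hP' hwk hw))
  -- nonzero entries of the rows
  have hne : ∀ k : Fin d, ∃ j, h₀ k j ≠ 0 := by
    intro k
    by_contra hcon
    push Not at hcon
    exact hdet0 (Matrix.det_eq_zero_of_row_eq_zero k hcon)
  choose j hj using hne
  have hsign : ∀ k : Fin d, ∀ᶠ h in 𝓝[KK d V ν] h₀, 0 < h k (j k) * h₀ k (j k) := by
    intro k
    have hc : Continuous (fun h : Matrix (Fin d) (Fin d) ℝ => h k (j k) * h₀ k (j k)) :=
      (continuous_apply_apply k (j k)).mul continuous_const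
    exact (hc.continuousAt.tendsto.mono_left nhdsWithin_le_nhds).eventually
      (lt_mem_nhds (mul_self_pos.2 (hj k)))
  filter_upwards [eventually_all.2 hrow, eventually_all.2 hsign, self_mem_nhdsWithin]
    with h h1 h2 h3
  choose c hc using h1
  have hcpos : ∀ i, 0 < c i := by
    intro i
    have h4 := h2 i
    rw [hc i, Pi.smul_apply, smul_eq_mul, mul_assoc] at h4
    exact pos_of_mul_pos_left h4 (mul_self_nonneg _)
  have hdiag : h = diagonal c * h₀ := by
    ext i l
    rw [Matrix.diagonal_mul, hc i]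
    rfl
  refine ⟨c, hcpos, ?_, hdiag⟩
  have h5 : |h.det| = |h₀.det| := h3.1.trans hh₀.1.symm
  rw [hdiag, Matrix.det_mul, det_diagonal, abs_mul] at h5
  have h6 : |∏ i, c i| = 1 := by
    have h7 : |∏ i, c i| * |h₀.det| = 1 * |h₀.det| := by rw [h5, one_mul]
    exact mul_right_cancel₀ (abs_ne_zero.2 hdet0) h7
  rwa [abs_of_pos (Finset.prod_pos fun i _ => hcpos i)] at h6

end Pool.Agent.V11109.CSD
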